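import Mathlib
import Pool.Agent.H60.Multi

namespace Pool.Agent.Results.MP_f0b429_co.Disproof

open Pool.Agent.H60.Multi

/-- `p*(n)`: partitions of `n` all of whose parts are at most `6` or divisible by `3`. -/
def pstar (n : ℕ) : ℕ :=
  (Finset.univ.filter (fun l : n.Partition => ∀ a ∈ l.parts, a ≤ 6 ∨ 3 ∣ a)).card

theorem result : ∃ N : ℕ, ∀ n ≥ N, M n < pstar n :=
  M_lt_part (fun a => a ≤ 6 ∨ 3 ∣ a) (Or.inl (by norm_num)) (fun a => Or.inr ⟨a, rfl⟩)

end Pool.Agent.Results.MP_f0b429_co.Disproof
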